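import Pool.Agent.PLX.StmtsB

/-!
Row MIK of the squad PLX (MP_1fc801_co): two lines of a narrow block are independent.
-/

set_option autoImplicit false

namespace Pool.Agent.PLX.H14

open Module

/-- (STEPS) -/
theorem mik_steps {A : Type} [AddCommGroup A] [Module ℚ A] {E : Type} [NormedAddCommGroup E]
    [NormedSpace ℝ E] {f : A →+ E} {V : AddSubgroup A} {e : ℕ} {ρ R α : ℝ} (hD : Dsc f V)
    (hρ0 : 0 < ρ) (hρ : 4 * ((e : ℝ) + 1) * ρ ≤ 1) (hR : 0 < R)
    (he : finrank ℚ (bs f V ρ) = e) (g : A →+ ℝ) (hg : ∀ x ∈ bl f V 1, g x ≤ α) (hα : 0 ≤ α)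
    {y : A} (hy : y ∈ bl f V R) (hyM : y ∈ bs f V ρ) : g y ≤ (2 * R + 1) * α := by
  haveI : FiniteDimensional ℚ (Submodule.span ℚ (bl f V ρ : Set A)) :=
    FiniteDimensional.span_finset ℚ _
  obtain ⟨v, hv, hspan, -⟩ := Submodule.exists_fun_fin_finrank_span_eq ℚ (bl f V ρ : Set A)
  have he' : finrank ℚ (Submodule.span ℚ (bl f V ρ : Set A)) = e := he
  have hyV := ((mem_bl hD).1 hy).1
  have hyn := ((mem_bl hD).1 hy).2
  have hvV : ∀ i, v i ∈ V := fun i => ((mem_bl hD).1 (Finset.mem_coe.1 (hv i))).1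
  have hvn : ∀ i, ‖f (v i)‖ ≤ ρ := fun i => ((mem_bl hD).1 (Finset.mem_coe.1 (hv i))).2
  have hyM' : y ∈ Submodule.span ℚ (Set.range v) := by
    rw [hspan]
    exact hyM
  obtain ⟨c, hc⟩ := (Submodule.mem_span_range_iff_exists_fun ℚ).1 hyM'
  set m : ℕ := ⌈2 * R⌉₊ with hm
  have hm1 : 2 * R ≤ m := Nat.le_ceil _
  have hm2 : (m : ℝ) ≤ 2 * R + 1 := (Nat.ceil_lt_add_one (by linarith)).le
  have hm0 : 0 < m := Nat.ceil_pos.2 (by linarith)
  have hmR : (0 : ℝ) < m := Nat.cast_pos.2 hm0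
  let p : ℕ → A := fun h => if h = m then y else ∑ i, ⌊(h : ℚ) * c i / m⌋ • v i
  have hp0 : p 0 = 0 := by
    have h1 : (0 : ℕ) ≠ m := hm0.ne
    simp only [p, if_neg h1]
    simp
  have hpm : p m = y := by simp [p]
  have hpV : ∀ h, p h ∈ V := by
    intro h
    by_cases h1 : h = m
    · rw [h1, hpm]
      exact hyV
    · simp only [p, if_neg h1]
      exact V.sum_mem fun i _ => V.zsmul_mem (hvV i) _
  have hfy : f y = ∑ i, ((c i : ℚ) : ℝ) • f (v i) := by
    rw [← hc, map_sum]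
    exact Finset.sum_congr rfl fun i _ => f_rat f (c i) (v i)
  have hnear : ∀ h, ‖f (p h) - ((h : ℝ) / m) • f y‖ ≤ e * ρ := by
    intro h
    by_cases h1 : h = m
    · rw [h1, hpm, div_self hmR.ne', one_smul, sub_self, norm_zero]
      positivity
    · simp only [p, if_neg h1]
      rw [map_sum, hfy, Finset.smul_sum, ← Finset.sum_sub_distrib]
      refine (norm_sum_le _ _).trans ?_
      have h2 : ∀ i ∈ (Finset.univ : Finset (Fin (finrank ℚ
          (Submodule.span ℚ (bl f V ρ : Set A))))),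
          ‖f (⌊(h : ℚ) * c i / m⌋ • v i) - ((h : ℝ) / m) • ((c i : ℚ) : ℝ) • f (v i)‖ ≤ ρ := by
        intro i _
        rw [f_int, smul_smul, ← sub_smul, norm_smul, Real.norm_eq_abs]
        have h3 : |((⌊(h : ℚ) * c i / m⌋ : ℤ) : ℝ) - (h : ℝ) / m * ((c i : ℚ) : ℝ)| ≤ 1 := by
          have h4 : (⌊(h : ℚ) * c i / m⌋ : ℚ) ≤ (h : ℚ) * c i / m := Int.floor_le _
          have h5 : (h : ℚ) * c i / m < ⌊(h : ℚ) * c i / m⌋ + 1 := Int.lt_floor_add_one _
          have h4' : ((⌊(h : ℚ) * c i / m⌋ : ℤ) : ℝ) ≤ (h : ℝ) * ((c i : ℚ) : ℝ) / m := by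
            exact_mod_cast h4
          have h5' : (h : ℝ) * ((c i : ℚ) : ℝ) / m < ((⌊(h : ℚ) * c i / m⌋ : ℤ) : ℝ) + 1 := by
            exact_mod_cast h5
          have h6 : (h : ℝ) / m * ((c i : ℚ) : ℝ) = (h : ℝ) * ((c i : ℚ) : ℝ) / m := by ring
          rw [h6, abs_le]
          constructor <;> linarith
        calc |((⌊(h : ℚ) * c i / m⌋ : ℤ) : ℝ) - (h : ℝ) / m * ((c i : ℚ) : ℝ)| * ‖f (v i)‖
            ≤ 1 * ρ := mul_le_mul h3 (hvn i) (norm_nonneg _) zero_le_one
          _ = ρ := one_mul ρ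
      refine (Finset.sum_le_card_nsmul _ _ _ h2).trans ?_
      rw [Finset.card_univ, Fintype.card_fin, he', nsmul_eq_mul]
  have hstep : ∀ h < m, g (p (h + 1) - p h) ≤ α := by
    intro h _
    refine hg _ ((mem_bl hD).2 ⟨V.sub_mem (hpV _) (hpV _), ?_⟩)
    have h1 := hnear (h + 1)
    have h2 := hnear h
    have h3 : f (p (h + 1) - p h) = (f (p (h + 1)) - (((h + 1 : ℕ) : ℝ) / m) • f y) -
        (f (p h) - ((h : ℝ) / m) • f y) + ((1 : ℝ) / m) • f y := by
      rw [map_sub]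
      have h4 : (((h + 1 : ℕ) : ℝ) / m) • f y = ((h : ℝ) / m) • f y + ((1 : ℝ) / m) • f y := by
        rw [← add_smul]
        congr 1
        push_cast
        ring
      rw [h4]
      abel
    rw [h3]
    have h5 : ‖((1 : ℝ) / m) • f y‖ ≤ 1 / 2 := by
      rw [norm_smul, Real.norm_of_nonneg (by positivity)]
      calc (1 : ℝ) / m * ‖f y‖ ≤ 1 / m * R := by gcongr
        _ ≤ 1 / 2 := by
          rw [div_mul_eq_mul_div, one_mul, div_le_iff₀ hmR]
          linarith
    have h6 : (e : ℝ) * ρ ≤ 1 / 4 := by nlinarith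
    refine (norm_add_le _ _).trans ?_
    have h7 := norm_sub_le (f (p (h + 1)) - (((h + 1 : ℕ) : ℝ) / m) • f y)
      (f (p h) - ((h : ℝ) / m) • f y)
    linarith
  have hsum : g y = ∑ h ∈ Finset.range m, g (p (h + 1) - p h) := by
    have h1 : ∑ h ∈ Finset.range m, g (p (h + 1) - p h) =
        ∑ h ∈ Finset.range m, (g (p (h + 1)) - g (p h)) :=
      Finset.sum_congr rfl fun h _ => map_sub g _ _
    rw [h1, Finset.sum_range_sub (fun h => g (p h)), hpm, hp0, map_zero, sub_zero]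
  rw [hsum]
  have h2 : ∑ h ∈ Finset.range m, g (p (h + 1) - p h) ≤ ∑ _h ∈ Finset.range m, α :=
    Finset.sum_le_sum fun h hh => hstep h (Finset.mem_range.1 hh)
  rw [Finset.sum_const, Finset.card_range, nsmul_eq_mul] at h2
  exact h2.trans (mul_le_mul_of_nonneg_right hm2 hα)

/-- the largest real part -/
theorem mik_max {A : Type} [AddCommGroup A] [Module ℚ A] {E : Type} [NormedAddCommGroup E]
    [NormedSpace ℝ E] {Φ : A →+ ℂ} {f : A →+ E} {G : AddSubgroup A} {M : Submodule ℚ A}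
    {ρ s T : ℝ} (hD : Dsc f G) (hρ1 : ρ ≤ 1) (hT : 1 ≤ T)
    (hM : bs f (cut G M) ρ = M) (hM0 : M ≠ ⊥) (hs : ∀ x ∈ M, (Φ x).im = s * (Φ x).re)
    (hP : Ppr Φ f G T) : ∃ y ∈ bl f (cut G M) 1, 0 < (Φ y).re ∧
      ∀ x ∈ bl f (cut G M) 1, (Φ x).re ≤ (Φ y).re := by
  have hDV := hD.cut M
  obtain ⟨x, hx, hx0⟩ : ∃ x ∈ bl f (cut G M) ρ, x ≠ 0 := by
    by_contra hcon
    push Not at hcon
    apply hM0
    rw [← hM]
    unfold bs
    rw [Submodule.span_eq_bot]
    intro x hx
    exact hcon x (Finset.mem_coe.1 hx)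
  have hxm := (mem_bl hDV).1 hx
  have hx1 : x ∈ bl f (cut G M) 1 := bl_mono hDV hρ1 hx
  have hre : (Φ x).re ≠ 0 := by
    intro h
    exact hx0 (hP x hxm.1.1 (hxm.2.trans (hρ1.trans hT)) (eq_zero_of_re (hs x hxm.1.2) h))
  obtain ⟨y, hy, hmax⟩ := Finset.exists_max_image (bl f (cut G M) 1) (fun x => (Φ x).re) ⟨x, hx1⟩
  refine ⟨y, hy, ?_, hmax⟩
  rcases lt_or_gt_of_ne hre with h | h
  · have h1 := hmax (-x) (neg_mem_bl hDV hx1)
    simp only [map_neg, Complex.neg_re] at h1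
    linarith
  · exact h.trans_le (hmax x hx1)

/-- a maximal separated subset -/
theorem mik_sep {B : Type} {F : Type} [NormedAddCommGroup F] (l : B → F)
    (P : Finset B) : ∃ S ⊆ P, (∀ x ∈ S, ∀ y ∈ S, x ≠ y → 1 ≤ ‖l x - l y‖) ∧
      ∀ p ∈ P, ∃ x ∈ S, ‖l p - l x‖ ≤ 1 := by
  classical
  obtain ⟨sep, hsep⟩ : ∃ sep : Finset B → Prop, ∀ S, sep S ↔
      ∀ x ∈ S, ∀ y ∈ S, x ≠ y → 1 ≤ ‖l x - l y‖ := ⟨_, fun _ => Iff.rfl⟩
  have hQ : (P.powerset.filter sep).Nonempty := by
    refine ⟨∅, Finset.mem_filter.2 ⟨Finset.empty_mem_powerset _, ?_⟩⟩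
    rw [hsep]
    simp
  obtain ⟨S, hS, hmax⟩ := Finset.exists_max_image (P.powerset.filter sep) Finset.card hQ
  obtain ⟨hSP, hS2⟩ := Finset.mem_filter.1 hS
  rw [Finset.mem_powerset] at hSP
  rw [hsep] at hS2
  refine ⟨S, hSP, hS2, fun p hp => ?_⟩
  by_contra hcon
  push Not at hcon
  have hpS : p ∉ S := by
    intro h
    have h1 := hcon p h
    rw [sub_self, norm_zero] at h1
    linarith
  have h1 : insert p S ∈ P.powerset.filter sep := by
    refine Finset.mem_filter.2 ⟨Finset.mem_powerset.2 (Finset.insert_subset hp hSP), ?_⟩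
    rw [hsep]
    intro x hx y hy hxy
    rcases Finset.mem_insert.1 hx with hx1 | hx1
    · rcases Finset.mem_insert.1 hy with hy1 | hy1
      · exact absurd (hx1.trans hy1.symm) hxy
      · rw [hx1]
        exact (hcon y hy1).le
    · rcases Finset.mem_insert.1 hy with hy1 | hy1
      · rw [hy1, norm_sub_rev]
        exact (hcon x hx1).le
      · exact hS2 x hx1 y hy1 hxy
  have h2 := hmax _ h1
  rw [Finset.card_insert_of_notMem hpS] at h2
  omega

theorem mik (pkv : PkvStmt) (gru : GruStmt) : MikStmt := by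
  intro A _ _ E _ _ Φ f G M M' e ρ j B R a b s t hD hρ0 hρ hj hst has hsb hat htb hM hM' hs ht
    hb hb' hc hc' hcone hR hBR hP
  classical
  have hDV := hD.cut M
  have hDV' := hD.cut M'
  have heR : (0 : ℝ) ≤ e := Nat.cast_nonneg e
  have hρ1 : ρ ≤ 1 := by nlinarith
  have hR8 : 8 ≤ R := by nlinarith
  haveI hfM : FiniteDimensional ℚ M := by
    rw [← hb]
    exact FiniteDimensional.span_finset ℚ _
  haveI hfM' : FiniteDimensional ℚ M' := by
    rw [← hb']
    exact FiniteDimensional.span_finset ℚ _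
  by_contra hnd
  obtain ⟨w, hwM, hwM', hw0⟩ : ∃ w ∈ M, w ∈ M' ∧ w ≠ 0 := by
    by_contra hcon
    push Not at hcon
    exact hnd (Submodule.disjoint_def.2 fun x hx hx' => hcon x hx hx')
  have hM0 : M ≠ ⊥ := by
    rintro rfl
    exact hw0 ((Submodule.mem_bot ℚ).1 hwM)
  have hM0' : M' ≠ ⊥ := by
    rintro rfl
    exact hw0 ((Submodule.mem_bot ℚ).1 hwM')
  have he1 : 1 ≤ e := by
    rw [Nat.one_le_iff_ne_zero]
    rintro rfl
    exact hM0 (Submodule.finrank_eq_zero.1 hM)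
  have hΦw : Φ w = 0 := eq_zero_of_slopes hst (hs w hwM) (ht w hwM')
  obtain ⟨ys, hys, hα, hmax⟩ := mik_max hD hρ1 (by linarith) hb hM0 hs hP
  obtain ⟨zs, hzs, hα', hmax'⟩ := mik_max hD hρ1 (by linarith) hb' hM0' ht hP
  set α := (Φ ys).re with hαdef
  set α' := (Φ zs).re with hα'def
  let gre : A →+ ℝ := Complex.reAddGroupHom.comp Φ
  have hgre : ∀ x, gre x = (Φ x).re := fun x => rfl
  have hst1 : ∀ y ∈ bl f (cut G M) R, |(Φ y).re| ≤ (2 * R + 1) * α := by
    intro y hy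
    have hfr : finrank ℚ (bs f (cut G M) ρ) = e := by rw [hb]; exact hM
    have h1 := mik_steps hDV hρ0 hρ (by linarith) hfr gre hmax hα.le hy
      (by rw [hb]; exact ((mem_bl hDV).1 hy).1.2)
    have h2 := mik_steps hDV hρ0 hρ (by linarith) hfr gre hmax hα.le (neg_mem_bl hDV hy)
      (by rw [hb]; exact M.neg_mem ((mem_bl hDV).1 hy).1.2)
    rw [hgre] at h1
    rw [map_neg, hgre] at h2
    rw [abs_le]
    constructor <;> linarith
  have hst2 : ∀ y ∈ bl f (cut G M') R, |(Φ y).re| ≤ (2 * R + 1) * α' := by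
    intro y hy
    have hfr : finrank ℚ (bs f (cut G M') ρ) = e := by rw [hb']; exact hM'
    have h1 := mik_steps hDV' hρ0 hρ (by linarith) hfr gre hmax' hα'.le hy
      (by rw [hb']; exact ((mem_bl hDV').1 hy).1.2)
    have h2 := mik_steps hDV' hρ0 hρ (by linarith) hfr gre hmax' hα'.le (neg_mem_bl hDV' hy)
      (by rw [hb']; exact M'.neg_mem ((mem_bl hDV').1 hy).1.2)
    rw [hgre] at h1
    rw [map_neg, hgre] at h2
    rw [abs_le]
    constructor <;> linarith
  -- the map to the normed space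
  let l : A × A →+ E × ℝ × ℝ := AddMonoidHom.mk'
    (fun p => (f p.1 + f p.2, (Φ p.1).re / α, (Φ p.2).re / α'))
    (by
      intro p q
      simp only [Prod.fst_add, Prod.snd_add, map_add, Complex.add_re, Prod.mk_add_mk]
      refine Prod.ext ?_ (Prod.ext ?_ ?_)
      · simp only
        abel
      · simp only
        ring
      · simp only
        ring)
  have hl : ∀ p, l p = (f p.1 + f p.2, (Φ p.1).re / α, (Φ p.2).re / α') := fun p => rfl
  have hlw : l (w, -w) = 0 := by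
    rw [hl]
    simp [hΦw]
  -- the functional
  have hv0 : ((w, -w) : A × A) ≠ 0 := fun h => hw0 (congrArg Prod.fst h)
  obtain ⟨χ, hχ⟩ : ∃ χ : A × A →ₗ[ℚ] ℚ, χ (w, -w) = 1 := by
    obtain ⟨g, hg⟩ : ∃ g : Module.Dual ℚ (A × A), g (w, -w) ≠ 0 := by
      by_contra hcon
      push Not at hcon
      exact hv0 ((Module.forall_dual_apply_eq_zero_iff ℚ _).1 hcon)
    refine ⟨(g (w, -w))⁻¹ • g, ?_⟩
    rw [LinearMap.smul_apply, smul_eq_mul, inv_mul_cancel₀ hg]
  let D : Submodule ℚ (A × A) := M.prod M' ⊓ LinearMap.ker χ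
  have hDlt : D < M.prod M' := by
    refine lt_of_le_of_ne inf_le_left ?_
    intro h
    have h1 : ((w, -w) : A × A) ∈ M.prod M' := ⟨hwM, M'.neg_mem hwM'⟩
    rw [← h] at h1
    have h2 : χ (w, -w) = 0 := h1.2
    rw [hχ] at h2
    exact one_ne_zero h2
  have hrange : LinearMap.range (M.subtype.prodMap M'.subtype) = M.prod M' := by
    rw [LinearMap.range_prodMap, Submodule.range_subtype, Submodule.range_subtype]
  have hinj : Function.Injective (M.subtype.prodMap M'.subtype) := by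
    intro p q hpq
    have h1 := congrArg Prod.fst hpq
    have h2 := congrArg Prod.snd hpq
    exact Prod.ext (Subtype.ext h1) (Subtype.ext h2)
  have hrkP : finrank ℚ (M.prod M') = 2 * e := by
    rw [← hrange, LinearMap.finrank_range_of_inj hinj, Module.finrank_prod, hM, hM']
    ring
  haveI hfP : FiniteDimensional ℚ (M.prod M') := by
    rw [← hrange]
    infer_instance
  have hrkD : finrank ℚ D ≤ 2 * e - 1 := by
    have h1 := Submodule.finrank_lt_finrank_of_lt hDlt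
    rw [hrkP] at h1
    omega
  haveI hfD : FiniteDimensional ℚ D := Submodule.finiteDimensional_of_le inf_le_left
  let pr : A × A → A × A := fun p => p - χ p • (w, -w)
  have hprD : ∀ p ∈ M.prod M', pr p ∈ D := by
    intro p hp
    refine ⟨(M.prod M').sub_mem hp ((M.prod M').smul_mem _ ⟨hwM, M'.neg_mem hwM'⟩), ?_⟩
    refine LinearMap.mem_ker.2 ?_
    simp only [pr]
    rw [map_sub, map_smul, hχ, smul_eq_mul, mul_one, sub_self]
  have hprl : ∀ p, l (pr p) = l p := by
    intro p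
    simp only [pr]
    rw [map_sub, f_rat l, hlw, smul_zero, sub_zero]
  -- the pairs
  let P : Finset (A × A) := bl f (cut G M) R ×ˢ bl f (cut G M') R
  obtain ⟨S, hSP, hSsep, hSmax⟩ := mik_sep l P
  have hPmem : ∀ p ∈ P, p.1 ∈ bl f (cut G M) R ∧ p.2 ∈ bl f (cut G M') R := fun p hp =>
    Finset.mem_product.1 hp
  have hnorm : ∀ p ∈ P, ‖l p‖ ≤ 3 * R := by
    intro p hp
    obtain ⟨h1, h2⟩ := hPmem p hp
    have h3 := ((mem_bl hDV).1 h1).2
    have h4 := ((mem_bl hDV').1 h2).2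
    have h5 := hst1 _ h1
    have h6 := hst2 _ h2
    rw [hl, norm_prod_le_iff, norm_prod_le_iff]
    refine ⟨?_, ?_, ?_⟩
    · refine (norm_add_le _ _).trans ?_
      linarith
    · simp only [Real.norm_eq_abs]
      rw [abs_div, abs_of_pos hα, div_le_iff₀ hα]
      nlinarith
    · simp only [Real.norm_eq_abs]
      rw [abs_div, abs_of_pos hα', div_le_iff₀ hα']
      nlinarith
  have hScard : (S.card : ℝ) ≤ (7 * R) ^ (2 * e - 1) := by
    have hinjS : Set.InjOn pr (S : Set (A × A)) := by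
      intro p hp q hq hpq
      by_contra hne
      have h1 := hSsep p hp q hq hne
      have h2 : l p = l q := by rw [← hprl p, ← hprl q, hpq]
      rw [h2, sub_self, norm_zero] at h1
      linarith
    have h1 := pkv (A × A) (E × ℝ × ℝ) l D hfD (S.image pr) 1 (3 * R) one_pos (by linarith)
      (by
        intro x hx
        obtain ⟨p, hp, rfl⟩ := Finset.mem_image.1 hx
        obtain ⟨h2, h3⟩ := hPmem p (hSP hp)
        refine ⟨hprD p ⟨((mem_bl hDV).1 h2).1.2, ((mem_bl hDV').1 h3).1.2⟩, ?_⟩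
        rw [hprl]
        exact hnorm p (hSP hp))
      (by
        intro x hx y hy hxy
        obtain ⟨p, hp, rfl⟩ := Finset.mem_image.1 hx
        obtain ⟨q, hq, rfl⟩ := Finset.mem_image.1 hy
        rw [map_sub, hprl, hprl]
        exact hSsep p hp q hq fun h => hxy (by rw [h]))
    rw [Finset.card_image_of_injOn hinjS] at h1
    refine h1.trans ?_
    have h2 : (1 + 2 * (3 * R) / 1 : ℝ) ≤ 7 * R := by
      rw [div_one]
      linarith
    have h3 : (1 : ℝ) ≤ 7 * R := by linarith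
    calc (1 + 2 * (3 * R) / 1 : ℝ) ^ finrank ℚ D ≤ (7 * R) ^ finrank ℚ D := by
          refine pow_le_pow_left₀ ?_ h2 _
          rw [div_one]
          linarith
      _ ≤ (7 * R) ^ (2 * e - 1) := pow_le_pow_right₀ h3 hrkD
  -- the points of one class
  have hys' := (mem_bl hDV).1 hys
  have hzs' := (mem_bl hDV').1 hzs
  have hclass : ∀ q ∈ S, ((P.filter fun p => ‖l p - l q‖ ≤ 1).card : ℝ) ≤ B * j ^ 2 := by
    intro q hq
    refine le_trans ?_ hcone
    rw [Nat.cast_le]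
    obtain ⟨hq1, hq2⟩ := hPmem q (hSP hq)
    have hq1' := (mem_bl hDV).1 hq1
    have hq2' := (mem_bl hDV').1 hq2
    refine Finset.card_le_card_of_injOn
      (fun p => (p.1 - q.1 + (3 : ℕ) • ys) + (p.2 - q.2 + (3 : ℕ) • zs)) ?_ ?_
    · intro p hp
      obtain ⟨hpP, hpq⟩ := Finset.mem_filter.1 (Finset.mem_coe.1 hp)
      obtain ⟨hp1, hp2⟩ := hPmem p hpP
      have hp1' := (mem_bl hDV).1 hp1
      have hp2' := (mem_bl hDV').1 hp2
      rw [← map_sub, hl, norm_prod_le_iff, norm_prod_le_iff] at hpq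
      simp only [Prod.fst_sub, Prod.snd_sub, Real.norm_eq_abs] at hpq
      obtain ⟨n1, n2, n3⟩ := hpq
      have g1 : p.1 - q.1 + (3 : ℕ) • ys ∈ cut G M :=
        (cut G M).add_mem ((cut G M).sub_mem hp1'.1 hq1'.1) ((cut G M).nsmul_mem hys'.1 3)
      have g2 : p.2 - q.2 + (3 : ℕ) • zs ∈ cut G M' :=
        (cut G M').add_mem ((cut G M').sub_mem hp2'.1 hq2'.1) ((cut G M').nsmul_mem hzs'.1 3)
      have r1 : 0 < (Φ (p.1 - q.1 + (3 : ℕ) • ys)).re := by
        rw [map_add, map_nsmul, Complex.add_re]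
        rw [abs_div, abs_of_pos hα, div_le_iff₀ hα] at n2
        have h1 := (abs_le.1 n2).1
        have h2 : ((3 : ℕ) • Φ ys).re = 3 * α := by
          rw [nsmul_eq_mul, Complex.mul_re]
          simp [hαdef]
        rw [h2]
        linarith
      have r2 : 0 < (Φ (p.2 - q.2 + (3 : ℕ) • zs)).re := by
        rw [map_add, map_nsmul, Complex.add_re]
        rw [abs_div, abs_of_pos hα', div_le_iff₀ hα'] at n3
        have h1 := (abs_le.1 n3).1
        have h2 : ((3 : ℕ) • Φ zs).re = 3 * α' := by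
          rw [nsmul_eq_mul, Complex.mul_re]
          simp [hα'def]
        rw [h2]
        linarith
      have i1 := hs _ g1.2
      have i2 := ht _ g2.2
      refine Finset.mem_coe.2 ((mem_cone hD).2 ⟨G.add_mem g1.1 g2.1, ?_, ?_, ?_, ?_⟩)
      · have h1 : f ((p.1 - q.1 + (3 : ℕ) • ys) + (p.2 - q.2 + (3 : ℕ) • zs)) =
            (f (p.1 - q.1) + f (p.2 - q.2)) + (f ((3 : ℕ) • ys) + f ((3 : ℕ) • zs)) := by
          rw [map_add, map_add, map_add]
          abel
        rw [h1]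
        have h2 : ‖f ((3 : ℕ) • ys)‖ ≤ 3 := by
          rw [norm_f_nat]
          have h3 := hys'.2
          push_cast
          linarith
        have h3 : ‖f ((3 : ℕ) • zs)‖ ≤ 3 := by
          rw [norm_f_nat]
          have h4 := hzs'.2
          push_cast
          linarith
        have h4 := norm_add_le (f (p.1 - q.1) + f (p.2 - q.2))
          (f ((3 : ℕ) • ys) + f ((3 : ℕ) • zs))
        have h5 := norm_add_le (f ((3 : ℕ) • ys)) (f ((3 : ℕ) • zs))
        linarith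
      · rw [map_add, Complex.add_re]
        linarith
      · rw [map_add, Complex.add_re, Complex.add_im, i1, i2, mul_add]
        exact add_le_add (mul_le_mul_of_nonneg_right has r1.le)
          (mul_le_mul_of_nonneg_right hat r2.le)
      · rw [map_add, Complex.add_re, Complex.add_im, i1, i2, mul_add]
        exact add_le_add (mul_le_mul_of_nonneg_right hsb r1.le)
          (mul_le_mul_of_nonneg_right htb r2.le)
    · intro p hp p' hp' heq
      obtain ⟨hpP, -⟩ := Finset.mem_filter.1 (Finset.mem_coe.1 hp)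
      obtain ⟨hpP', -⟩ := Finset.mem_filter.1 (Finset.mem_coe.1 hp')
      obtain ⟨hp1, hp2⟩ := hPmem p hpP
      obtain ⟨hp1', hp2'⟩ := hPmem p' hpP'
      have k1 := (mem_bl hDV).1 hp1
      have k2 := (mem_bl hDV').1 hp2
      have k1' := (mem_bl hDV).1 hp1'
      have k2' := (mem_bl hDV').1 hp2'
      have hd : p.1 - p'.1 = p'.2 - p.2 := by
        have h1 : (p.1 - q.1 + (3 : ℕ) • ys) + (p.2 - q.2 + (3 : ℕ) • zs) =
          (p'.1 - q.1 + (3 : ℕ) • ys) + (p'.2 - q.2 + (3 : ℕ) • zs) := heq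
        have h2 : p.1 - p'.1 - (p'.2 - p.2) =
          ((p.1 - q.1 + (3 : ℕ) • ys) + (p.2 - q.2 + (3 : ℕ) • zs)) -
          ((p'.1 - q.1 + (3 : ℕ) • ys) + (p'.2 - q.2 + (3 : ℕ) • zs)) := by abel
        rw [h1, sub_self] at h2
        exact sub_eq_zero.1 h2
      have m1 : p.1 - p'.1 ∈ cut G M := (cut G M).sub_mem k1.1 k1'.1
      have m2 : p.1 - p'.1 ∈ M' := by
        rw [hd]
        exact M'.sub_mem k2'.1.2 k2.1.2
      have hz : Φ (p.1 - p'.1) = 0 := eq_zero_of_slopes hst (hs _ m1.2) (ht _ m2)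
      have hn : ‖f (p.1 - p'.1)‖ ≤ 2 * R := by
        rw [map_sub]
        have h1 := norm_sub_le (f p.1) (f p'.1)
        linarith [k1.2, k1'.2]
      have h0 := hP _ m1.1 hn hz
      have h1 : p.1 = p'.1 := sub_eq_zero.1 h0
      rw [h0] at hd
      have h2 : p'.2 = p.2 := sub_eq_zero.1 hd.symm
      exact Prod.ext h1 h2.symm
  -- counting
  have hcount : (P.card : ℝ) ≤ S.card * (B * j ^ 2) := by
    have h1 : P ⊆ S.biUnion fun q => P.filter fun p => ‖l p - l q‖ ≤ 1 := by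
      intro p hp
      obtain ⟨q, hq, hpq⟩ := hSmax p hp
      exact Finset.mem_biUnion.2 ⟨q, hq, Finset.mem_filter.2 ⟨hp, hpq⟩⟩
    have h2 : (P.card : ℝ) ≤ ∑ q ∈ S, ((P.filter fun p => ‖l p - l q‖ ≤ 1).card : ℝ) := by
      exact_mod_cast (Finset.card_le_card h1).trans Finset.card_biUnion_le
    refine h2.trans ((Finset.sum_le_sum hclass).trans ?_)
    rw [Finset.sum_const, nsmul_eq_mul]
  have hgru : ∀ (N : Submodule ℚ A), bs f (cut G N) ρ = N → finrank ℚ N = e →
      j ≤ cnt f (cut G N) 1 → R ^ e * j ≤ (4 * ((e : ℝ) + 2)) ^ e * cnt f (cut G N) R := by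
    intro N hN hNe hjN
    have h1 := gru A E f (cut G N) e ρ 1 R (hD.cut N) hρ0 hρ1 (by linarith)
      (by rw [hN]; exact hNe)
      (by
        rw [hN]
        unfold bs
        rw [Submodule.span_le]
        intro x hx
        exact ((mem_bl (hD.cut N)).1 (Finset.mem_coe.1 hx)).1.2)
    rw [mul_one] at h1
    exact (mul_le_mul_of_nonneg_left hjN (by positivity)).trans h1
  have g1 := hgru M hb hM hc
  have g2 := hgru M' hb' hM' hc'
  have hPc : (P.card : ℝ) = (cnt f (cut G M) R : ℝ) * cnt f (cut G M') R := by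
    simp only [P, Finset.card_product]
    push_cast
    rfl
  have hR0 : (0 : ℝ) < R := by linarith
  set q : ℝ := 4 * ((e : ℝ) + 2) with hq
  have hq0 : 0 < q := by positivity
  have hB0 : 0 ≤ B := by
    by_contra hneg
    push Not at hneg
    have h1 : B * j ^ 2 < 0 := mul_neg_of_neg_of_pos hneg (by positivity)
    have h2 : (0 : ℝ) ≤ ((cone Φ f G 8 a b).card : ℝ) := Nat.cast_nonneg _
    linarith
  have hmain : R ^ (2 * e) * j ^ 2 ≤ q ^ (2 * e) * ((7 * R) ^ (2 * e - 1) * (B * j ^ 2)) := by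
    have h1 : (R ^ e * j) * (R ^ e * j) ≤
        (q ^ e * cnt f (cut G M) R) * (q ^ e * cnt f (cut G M') R) :=
      mul_le_mul g1 g2 (by positivity) (by positivity)
    have h2 : (q ^ e * cnt f (cut G M) R) * (q ^ e * cnt f (cut G M') R) =
        q ^ (2 * e) * (P.card : ℝ) := by
      rw [hPc, two_mul, pow_add]
      ring
    have h3 : (R ^ e * j) * (R ^ e * j) = R ^ (2 * e) * j ^ 2 := by
      rw [two_mul, pow_add]
      ring
    rw [h2, h3] at h1
    refine h1.trans (mul_le_mul_of_nonneg_left ?_ (by positivity))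
    refine hcount.trans (mul_le_mul_of_nonneg_right hScard (by positivity))
  have hmain2 : R ≤ B * (q ^ (2 * e) * 7 ^ (2 * e)) := by
    have h1 : (2 * e : ℕ) = (2 * e - 1) + 1 := by omega
    have h2 : R ^ (2 * e) = R ^ (2 * e - 1) * R := by
      conv_lhs => rw [h1]
      rw [pow_succ]
    have h3 : (0 : ℝ) < R ^ (2 * e - 1) * j ^ 2 := by positivity
    have h4 : (7 : ℝ) ^ (2 * e - 1) ≤ 7 ^ (2 * e) :=
      pow_le_pow_right₀ (by norm_num) (by omega)
    have h5 : (R ^ (2 * e - 1) * j ^ 2) * R ≤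
        (R ^ (2 * e - 1) * j ^ 2) * (B * (q ^ (2 * e) * 7 ^ (2 * e))) := by
      calc (R ^ (2 * e - 1) * j ^ 2) * R = R ^ (2 * e) * j ^ 2 := by rw [h2]; ring
        _ ≤ q ^ (2 * e) * ((7 * R) ^ (2 * e - 1) * (B * j ^ 2)) := hmain
        _ = (R ^ (2 * e - 1) * j ^ 2) * (B * (q ^ (2 * e) * 7 ^ (2 * e - 1))) := by
          rw [mul_pow]
          ring
        _ ≤ (R ^ (2 * e - 1) * j ^ 2) * (B * (q ^ (2 * e) * 7 ^ (2 * e))) := by gcongr
    exact le_of_mul_le_mul_left h5 h3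
  linarith

end Pool.Agent.PLX.H14
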