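import Pool.Agent.PLX.StmtsA

/-!
Row PSI of the squad PLX (MP_1fc801_co): from a functional on one line to a projection of
everything.
-/

set_option autoImplicit false

namespace Pool.Agent.PLX.H14

open Module

theorem psi : PsiStmt := by
  intro A _ _ N W t₁ t₂ S ψ hTwo h1W h2W h12 hcard hS hE hψ
  classical
  -- a third slope
  obtain ⟨k₀, hk0W, hk01, hk02⟩ : ∃ k₀ ∈ W, k₀ ≠ t₁ ∧ k₀ ≠ t₂ := by
    by_contra hcon
    push Not at hcon
    have hsub : W ⊆ {t₁, t₂} := by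
      intro k hk
      rw [Finset.mem_insert, Finset.mem_singleton]
      by_cases h : k = t₁
      · exact Or.inl h
      · exact Or.inr (hcon k hk h)
    have h := (Finset.card_le_card hsub).trans Finset.card_le_two
    omega
  obtain ⟨y₀, hy₀⟩ : ∃ y, ψ y ≠ 0 := by
    by_contra hcon
    push Not at hcon
    exact hψ (LinearMap.ext hcon)
  have hd21 : t₂ - t₁ ≠ 0 := sub_ne_zero.2 (Ne.symm h12)
  have c12 := hTwo t₁ h1W t₂ h2W h12
  have c10 := hTwo t₁ h1W k₀ hk0W (Ne.symm hk01)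
  let P1 : A →ₗ[ℚ] N t₁ := Submodule.linearProjOfIsCompl (N t₁) (N t₂) c12
  let P2 : A →ₗ[ℚ] N t₂ := Submodule.linearProjOfIsCompl (N t₂) (N t₁) c12.symm
  let T : A →ₗ[ℚ] N t₁ := Submodule.linearProjOfIsCompl (N t₁) (N k₀) c10
  have hT1 : ∀ x : N t₁, T (x : A) = x := fun x =>
    Submodule.linearProjOfIsCompl_apply_left c10 x
  have hT0 : ∀ x ∈ N k₀, T x = 0 := fun x hx =>
    (Submodule.linearProjOfIsCompl_apply_eq_zero_iff c10).2 hx
  have hP11 : ∀ x : N t₁, P1 (x : A) = x := fun x =>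
    Submodule.linearProjOfIsCompl_apply_left c12 x
  have hP12 : ∀ x ∈ N t₂, P1 x = 0 := fun x hx =>
    (Submodule.linearProjOfIsCompl_apply_eq_zero_iff c12).2 hx
  have hP22 : ∀ x : N t₂, P2 (x : A) = x := fun x =>
    Submodule.linearProjOfIsCompl_apply_left c12.symm x
  have hP21 : ∀ x ∈ N t₁, P2 x = 0 := fun x hx =>
    (Submodule.linearProjOfIsCompl_apply_eq_zero_iff c12.symm).2 hx
  have hsum : ∀ m : A, m = (P1 m : A) + (P2 m : A) := by
    intro m
    obtain ⟨u, hu, v, hv, huv⟩ := Submodule.mem_sup.1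
      (show m ∈ N t₁ ⊔ N t₂ by rw [c12.sup_eq_top]; trivial)
    have h1 : P1 m = ⟨u, hu⟩ := by
      rw [← huv, map_add, hP12 v hv, add_zero]
      exact hP11 ⟨u, hu⟩
    have h2 : P2 m = ⟨v, hv⟩ := by
      rw [← huv, map_add, hP21 u hu, zero_add]
      exact hP22 ⟨v, hv⟩
    rw [h1, h2]
    exact huv.symm
  let r₀ : ℝ := (k₀ - t₁) / (k₀ - t₂)
  have hr0 : r₀ ≠ 0 := div_ne_zero (sub_ne_zero.2 hk01) (sub_ne_zero.2 hk02)
  let π : A →+ ℂ := AddMonoidHom.mk'
    (fun m => ((ψ (P1 m) : ℝ) : ℂ) * ⟨1, t₁⟩ + ((r₀ * ψ (T (P2 m : A)) : ℝ) : ℂ) * ⟨1, t₂⟩)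
    (by
      intro m n
      have e1 : ψ (P1 (m + n)) = ψ (P1 m) + ψ (P1 n) := by rw [map_add, map_add]
      have e2 : ψ (T (P2 (m + n) : A)) = ψ (T (P2 m : A)) + ψ (T (P2 n : A)) := by
        rw [map_add, Submodule.coe_add, map_add, map_add]
      simp only [e1, e2]
      push_cast
      ring)
  have hπ : ∀ m, π m = ((ψ (P1 m) : ℝ) : ℂ) * ⟨1, t₁⟩ +
      ((r₀ * ψ (T (P2 m : A)) : ℝ) : ℂ) * ⟨1, t₂⟩ := fun m => rfl
  have hre : ∀ m, (π m).re = ψ (P1 m) + r₀ * ψ (T (P2 m : A)) := by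
    intro m
    rw [hπ]
    simp [Complex.mul_re, Complex.mul_im]
  have him : ∀ m, (π m).im = t₁ * ψ (P1 m) + t₂ * (r₀ * ψ (T (P2 m : A))) := by
    intro m
    rw [hπ]
    simp [Complex.mul_re, Complex.mul_im]
    ring
  -- the third lines
  have key : ∀ k ∈ W, k ≠ t₁ → k ≠ t₂ → ∀ m ∈ N k,
      r₀ * ψ (T (P2 m : A)) = -((k - t₁) / (k - t₂) * ψ (P1 m)) := by
    intro k hkW hk1 hk2 m hm
    obtain ⟨z', hz', h1, h2⟩ := hS k hkW k₀ hk0W hk1 hk2 hk01 hk02 (P1 m)
    have hz : -(P2 m : A) - z' = 0 := by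
      have h3 : -(P2 m : A) - z' ∈ N k := by
        have h4 : -(P2 m : A) - z' = ((P1 m : A) - z') - m := by
          conv_rhs => rw [hsum m]
          rw [← hsum m]
          have h5 := hsum m
          have h6 : (P2 m : A) = m - (P1 m : A) := by
            rw [eq_sub_iff_add_eq, add_comm]
            exact h5.symm
          rw [h6]
          abel
        rw [h4]
        exact (N k).sub_mem h1 hm
      have h4 : -(P2 m : A) - z' ∈ N t₂ := (N t₂).sub_mem ((N t₂).neg_mem (P2 m).2) hz'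
      exact Submodule.disjoint_def.1 (hTwo k hkW t₂ h2W hk2).disjoint _ h3 h4
    have hz2 : (P2 m : A) = -z' := by
      have h3 : -(P2 m : A) = z' := sub_eq_zero.1 hz
      rw [← h3, neg_neg]
    have hTz : T z' = S k k₀ (P1 m) := by
      have h3 : T ((S k k₀ (P1 m) : A) - z') = 0 := hT0 _ h2
      rw [map_sub, hT1, sub_eq_zero] at h3
      exact h3.symm
    have hq : Eig ψ (S k k₀, lam t₁ t₂ k k₀) :=
      hE _ ⟨k, hkW, k₀, hk0W, hk1, hk2, hk01, hk02, rfl⟩
    rw [hz2, map_neg, hTz, map_neg, hq (P1 m)]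
    have hlam : lam t₁ t₂ k k₀ = ((k - t₁) / (k - t₂)) / r₀ := rfl
    simp only [hlam]
    field_simp
  have hz1 : ∀ m ∈ N t₁, ψ (T (P2 m : A)) = 0 := by
    intro m hm
    rw [hP21 m hm, Submodule.coe_zero, map_zero, map_zero]
  have hz2 : ∀ m ∈ N t₂, ψ (P1 m) = 0 := by
    intro m hm
    rw [hP12 m hm, map_zero]
  refine ⟨π, ?_, ?_, ?_⟩
  · intro t htW m hm
    rw [hre, him]
    by_cases ht1 : t = t₁
    · subst ht1
      rw [hz1 m hm]
      ring
    · by_cases ht2 : t = t₂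
      · subst ht2
        rw [hz2 m hm]
        ring
      · rw [key t htW ht1 ht2 m hm]
        have hd : t - t₂ ≠ 0 := sub_ne_zero.2 ht2
        field_simp
        ring
  · intro y hy
    have h1 : P1 (y : A) = y := hP11 y
    refine Complex.ext ?_ ?_
    · rw [hre, hz1 _ y.2, h1, hy]
      simp
    · rw [him, hz1 _ y.2, h1, hy]
      simp
  · intro t htW
    by_cases ht1 : t = t₁
    · subst ht1
      refine ⟨y₀, y₀.2, fun h => ?_⟩
      have h' := congrArg Complex.re h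
      rw [hre, hz1 _ y₀.2, hP11] at h'
      simp only [mul_zero, add_zero, Complex.zero_re] at h'
      exact hy₀ h'
    · by_cases ht2 : t = t₂
      · subst ht2
        have c20 := hTwo t h2W k₀ hk0W (Ne.symm hk02)
        obtain ⟨z, hz, w, hw, hzw⟩ := Submodule.mem_sup.1
          (show (y₀ : A) ∈ N t ⊔ N k₀ by rw [c20.sup_eq_top]; trivial)
        refine ⟨z, hz, fun h => ?_⟩
        have h' := congrArg Complex.re h
        have hTz : T z = y₀ := by
          have h3 : T (y₀ : A) = y₀ := hT1 y₀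
          rw [← hzw, map_add, hT0 w hw, add_zero] at h3
          exact h3
        have hP : P2 z = ⟨z, hz⟩ := hP22 ⟨z, hz⟩
        rw [hre, hz2 z hz, hP] at h'
        have hTz' : T ((⟨z, hz⟩ : N t) : A) = y₀ := hTz
        rw [hTz', zero_add, Complex.zero_re] at h'
        exact (mul_ne_zero hr0 hy₀) h'
      · have c2k := hTwo t₂ h2W t htW (Ne.symm ht2)
        obtain ⟨z, hz, w, hw, hzw⟩ := Submodule.mem_sup.1
          (show (y₀ : A) ∈ N t₂ ⊔ N t by rw [c2k.sup_eq_top]; trivial)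
        refine ⟨w, hw, fun h => ?_⟩
        have h' := congrArg Complex.re h
        have hP : P1 w = y₀ := by
          have h3 : P1 (y₀ : A) = y₀ := hP11 y₀
          rw [← hzw, map_add, hP12 z hz, zero_add] at h3
          exact h3
        rw [hre, key t htW ht1 ht2 w hw, hP, Complex.zero_re] at h'
        have hd : t - t₂ ≠ 0 := sub_ne_zero.2 ht2
        have h4 : ψ y₀ + -((t - t₁) / (t - t₂) * ψ y₀) = (t₁ - t₂) / (t - t₂) * ψ y₀ := by
          field_simp
          ring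
        rw [h4] at h'
        exact (mul_ne_zero (div_ne_zero (sub_ne_zero.2 h12) hd) hy₀) h'

end Pool.Agent.PLX.H14
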